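import Pool.Agent.helper76.TV.CrA

set_option autoImplicit false

namespace Pool.Agent.helper93.TV

open BigOperators Finset Matrix

theorem Cr_T1_H {V : Type} [Fintype V] [DecidableEq V] (Z : Matrix V V ℂ) :
    (T1 Z)ᴴ = T1 (Zᴴ) := by
  ext x y
  simp only [conjTranspose_apply, T1]
  by_cases h : x.2 = y.2
  · rw [if_pos h, if_pos h.symm]
  · rw [if_neg h, if_neg (Ne.symm h), star_zero]

theorem Cr_T2_H {V : Type} [Fintype V] [DecidableEq V] (Z : Matrix V V ℂ) :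
    (T2 Z)ᴴ = T2 (Zᴴ) := by
  ext x y
  simp only [conjTranspose_apply, T2]
  by_cases h : x.1 = y.1
  · rw [if_pos h, if_pos h.symm]
  · rw [if_neg h, if_neg (Ne.symm h), star_zero]

theorem Cr_T1_neg {V : Type} [Fintype V] [DecidableEq V] (Z : Matrix V V ℂ) :
    T1 (-Z) = -T1 Z := by
  ext x y
  simp only [Matrix.neg_apply, T1]
  split_ifs
  · rfl
  · rw [neg_zero]

theorem Cr_T2_neg {V : Type} [Fintype V] [DecidableEq V] (Z : Matrix V V ℂ) :
    T2 (-Z) = -T2 Z := by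
  ext x y
  simp only [Matrix.neg_apply, T2]
  split_ifs
  · rfl
  · rw [neg_zero]

theorem Cr_M {V : Type} [Fintype V] [DecidableEq V] (Z : Matrix V V ℂ) (hZ : Zᴴ = -Z)
    (F : V → V → V → V → ℂ) (α γ β δ : V) :
    ((T1 Z + T2 Z) * Fm F - Fm F * (T1 Z + T2 Z)) (α, γ) (β, δ) = Cr_E Z F α γ β δ := by
  have hs : ∀ x y, star (Z x y) = - Z y x := by
    intro x y
    have h := congrFun (congrFun hZ y) x
    rw [conjTranspose_apply, Matrix.neg_apply] at h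
    exact h
  rw [add_mul, mul_add, Matrix.sub_apply, Matrix.add_apply, Matrix.add_apply]
  unfold Cr_E
  simp only [hs, Matrix.mul_apply, Fintype.sum_prod_type, T1, T2, Fm, ite_mul, mul_ite, zero_mul,
    mul_zero, Finset.sum_ite_eq, Finset.sum_ite_eq', Finset.mem_univ, if_true, mul_neg,
    Finset.sum_neg_distrib, Finset.sum_ite_irrel, Finset.sum_const_zero]
  ring

theorem Cr_trace {V : Type} [Fintype V] [DecidableEq V] (Z : Matrix V V ℂ) (hZ : Zᴴ = -Z)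
    (F F' : V → V → V → V → ℂ) :
    ∑ α, ∑ γ, ∑ β, ∑ δ, star (F α γ β δ) * Cr_E Z F' α γ β δ =
      Matrix.trace ((Fm F)ᴴ * ((T1 Z + T2 Z) * Fm F' - Fm F' * (T1 Z + T2 Z))) := by
  have h1 : ∑ α, ∑ γ, ∑ β, ∑ δ, star (F α γ β δ) * Cr_E Z F' α γ β δ =
      ∑ x : V × V, ∑ y : V × V, star (F x.1 x.2 y.1 y.2) * Cr_E Z F' x.1 x.2 y.1 y.2 := by
    simp only [Fintype.sum_prod_type]
  rw [h1, Finset.sum_comm]
  refine Finset.sum_congr rfl fun y _ => ?_
  rw [diag_apply, Matrix.mul_apply]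
  refine Finset.sum_congr rfl fun x _ => ?_
  rw [← Cr_M Z hZ]
  rfl

theorem Cr : Cr_stmt := by
  intro hX1 hG I V _ _ _ _ D F F' hF hF' hmin Z hC hZ
  -- the derivative vanishes
  have hder : (∑ α, ∑ γ, ∑ β, ∑ δ, star (F α γ β δ) * Cr_E Z F' α γ β δ).re = 0 := by
    have hmax : IsLocalMax (fun s : ℝ =>
        (∑ α, ∑ γ, ∑ β, ∑ δ, star (F α γ β δ) * act (Cr_v Z s) F' α γ β δ).re) 0 := by
      refine Filter.Eventually.of_forall fun s => ?_
      have hg := Cr_v_gau D Z hC hZ s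
      have h1 := hmin _ hg
      have h2 := (hG I V D).2.2.2.2.2 _ F' hg hF'
      rw [Cr_expand F F', Cr_expand F (act (Cr_v Z s) F'), Cr_norm D F' hF', Cr_norm D _ h2] at h1
      simp only [Cr_v_zero, Cr_act_one]
      linarith
    have hd : HasDerivAt (fun s : ℝ =>
        (∑ α, ∑ γ, ∑ β, ∑ δ, star (F α γ β δ) * act (Cr_v Z s) F' α γ β δ).re)
        (∑ α, ∑ γ, ∑ β, ∑ δ, star (F α γ β δ) * Cr_E Z F' α γ β δ).re 0 := by
      have h1 : HasDerivAt (fun s : ℝ =>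
          ∑ α, ∑ γ, ∑ β, ∑ δ, star (F α γ β δ) * act (Cr_v Z s) F' α γ β δ)
          (∑ α, ∑ γ, ∑ β, ∑ δ, star (F α γ β δ) * Cr_E Z F' α γ β δ) 0 :=
        HasDerivAt.fun_sum fun α _ => HasDerivAt.fun_sum fun γ _ => HasDerivAt.fun_sum fun β _ =>
          HasDerivAt.fun_sum fun δ _ => (Cr_act_deriv Z F' α γ β δ).const_mul _
      exact Complex.reCLM.hasFDerivAt.comp_hasDerivAt (0 : ℝ) h1
    exact hmax.hasDerivAt_eq_zero hd
  rw [Cr_trace Z hZ] at hder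
  have hX := (hX1 I V D F F' hF hF').2.2.1
  set X := Fm F' * (Fm F)ᴴ with hXdef
  have hdp : dp F Z = Fm F * (T1 Z + T2 Z) * (Fm F)ᴴ - (T1 Z + T2 Z) := by
    unfold dp g0 g1 g2 g3
    rw [mul_add, add_mul]
    abel
  have hWH : (T1 Z + T2 Z)ᴴ = -(T1 Z + T2 Z) := by
    rw [conjTranspose_add, Cr_T1_H, Cr_T2_H, hZ, Cr_T1_neg, Cr_T2_neg, neg_add]
  have hdH : (dp F Z)ᴴ = - dp F Z := by
    rw [hdp, conjTranspose_sub, conjTranspose_mul, conjTranspose_mul, conjTranspose_conjTranspose,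
      hWH, Matrix.neg_mul, Matrix.mul_neg, Matrix.mul_assoc]
    abel
  have h1 : Matrix.trace (X * dp F Z) =
      - Matrix.trace ((Fm F)ᴴ * ((T1 Z + T2 Z) * Fm F' - Fm F' * (T1 Z + T2 Z))) := by
    have e1 : X * dp F Z = Fm F' * (T1 Z + T2 Z) * (Fm F)ᴴ - X * (T1 Z + T2 Z) := by
      rw [hdp, Matrix.mul_sub, ← Matrix.mul_assoc, ← Matrix.mul_assoc, hX]
    have e2 : Matrix.trace (Fm F' * (T1 Z + T2 Z) * (Fm F)ᴴ) =
        Matrix.trace ((Fm F)ᴴ * (Fm F' * (T1 Z + T2 Z))) := Matrix.trace_mul_comm _ _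
    have e3 : Matrix.trace (X * (T1 Z + T2 Z)) =
        Matrix.trace ((Fm F)ᴴ * ((T1 Z + T2 Z) * Fm F')) := by
      rw [hXdef, Matrix.mul_assoc, Matrix.trace_mul_comm, Matrix.mul_assoc]
    rw [e1, Matrix.trace_sub, e2, e3, Matrix.mul_sub, Matrix.trace_sub]
    ring
  have h2 : (Matrix.trace (X * dp F Z)).re = 0 := by
    rw [h1, Complex.neg_re, hder, neg_zero]
  have h3 : Matrix.trace (Xᴴ * dp F Z) = - star (Matrix.trace (X * dp F Z)) := by
    have e2 : (dp F Z * X)ᴴ = - (Xᴴ * dp F Z) := by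
      rw [conjTranspose_mul, hdH, Matrix.mul_neg]
    have e3 : Matrix.trace ((dp F Z * X)ᴴ) = star (Matrix.trace (dp F Z * X)) :=
      Matrix.trace_conjTranspose _
    rw [e2, Matrix.trace_neg, Matrix.trace_mul_comm (dp F Z) X] at e3
    rw [← e3, neg_neg]
  rw [Matrix.sub_mul, Matrix.trace_sub, Complex.sub_re, h3, Complex.neg_re]
  have h4 : (star (Matrix.trace (X * dp F Z))).re = (Matrix.trace (X * dp F Z)).re :=
    Complex.conj_re _
  rw [h4, h2]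
  ring

end Pool.Agent.helper93.TV
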