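import Pool.Agent.helper93.TV.Spec1

set_option autoImplicit false

namespace Pool.Agent.helper93.TV

open BigOperators Finset Matrix

variable {I V : Type} [Fintype I] [DecidableEq I] [Fintype V] [DecidableEq V]

/-- the one parameter group -/
noncomputable def Cr_v (Z : Matrix V V ℂ) (s : ℝ) : Matrix V V ℂ := NormedSpace.exp (s • Z)

theorem Cr_v_zero (Z : Matrix V V ℂ) : Cr_v Z 0 = 1 := by
  unfold Cr_v
  rw [zero_smul, NormedSpace.exp_zero]

theorem Cr_v_H (Z : Matrix V V ℂ) (hZ : Zᴴ = -Z) (s : ℝ) : (Cr_v Z s)ᴴ = Cr_v Z (-s) := by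
  unfold Cr_v
  rw [← Matrix.exp_conjTranspose, conjTranspose_smul, hZ, star_trivial, smul_neg, neg_smul]

theorem Cr_v_mul (Z : Matrix V V ℂ) (s : ℝ) : Cr_v Z s * Cr_v Z (-s) = 1 := by
  unfold Cr_v
  rw [← Matrix.exp_add_of_commute, neg_smul, add_neg_cancel, NormedSpace.exp_zero]
  rw [neg_smul]
  exact (Commute.refl _).neg_right

theorem Cr_v_mul' (Z : Matrix V V ℂ) (s : ℝ) : Cr_v Z (-s) * Cr_v Z s = 1 := by
  have := Cr_v_mul Z (-s)
  rwa [neg_neg] at this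

theorem Cr_v_deriv (Z : Matrix V V ℂ) (x y : V) :
    HasDerivAt (fun s : ℝ => Cr_v Z s x y) (Z x y) 0 := by
  let _ : NormedRing (Matrix V V ℂ) := Matrix.linftyOpNormedRing
  let _ : NormedAlgebra ℝ (Matrix V V ℂ) := Matrix.linftyOpNormedAlgebra
  have h := hasDerivAt_exp_smul_const (𝕂 := ℝ) Z 0
  rw [zero_smul, NormedSpace.exp_zero, one_mul] at h
  have h2 := ((Matrix.entryLinearMap ℝ ℂ x y).toContinuousLinearMap.hasFDerivAt (x := Cr_v Z 0)).comp_hasDerivAt (0 : ℝ) h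
  exact h2

theorem Cr_v_supp (D : FD I V) (Z : Matrix V V ℂ) (hC : D.C2 Z) (s : ℝ) : D.C2 (Cr_v Z s) := by
  intro v w hvw
  by_contra hne
  apply hvw
  let P : Matrix V V ℂ := diagonal fun x =>
    if D.s1 v = D.s1 x ∧ D.s2 v = D.s2 x ∧ D.t v = D.t x then 1 else 0
  have hP : Commute P Z := by
    ext x y
    rw [diagonal_mul, mul_diagonal]
    by_cases hz : Z x y = 0
    · rw [hz, mul_zero, zero_mul]
    · obtain ⟨h1, h2, h3⟩ := hC x y hz
      rw [h1, h2, h3, mul_comm]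
  have hP2 : Commute P (Cr_v Z s) := (hP.smul_right s).exp_right
  have h3 := congrFun (congrFun hP2.eq v) w
  rw [diagonal_mul, mul_diagonal, if_pos ⟨rfl, rfl, rfl⟩, one_mul, if_neg hne, mul_zero] at h3
  exact h3

theorem Cr_v_gau (D : FD I V) (Z : Matrix V V ℂ) (hC : D.C2 Z) (hZ : Zᴴ = -Z) (s : ℝ) :
    D.Gau (Cr_v Z s) := by
  refine ⟨Cr_v_supp D Z hC s, fun v w => ?_, fun v w => ?_⟩
  · have h := Cr_v_mul Z s
    rw [← Cr_v_H Z hZ] at h
    have h2 := congrFun (congrFun h v) w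
    rw [Matrix.mul_apply, Matrix.one_apply] at h2
    exact h2
  · have h := Cr_v_mul' Z s
    rw [← Cr_v_H Z hZ] at h
    have h2 := congrFun (congrFun h v) w
    rw [Matrix.mul_apply, Matrix.one_apply] at h2
    exact h2


/-! ### norms -/

theorem Cr_norm (D : FD I V) (F : V → V → V → V → ℂ) (hF : D.UF F) :
    ∑ α, ∑ γ, ∑ β, ∑ δ, ‖F α γ β δ‖ ^ 2 = ∑ α, ∑ γ, if D.t α = D.s1 γ then 1 else 0 := by
  refine Finset.sum_congr rfl fun α _ => Finset.sum_congr rfl fun γ _ => ?_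
  by_cases h : D.t α = D.s1 γ
  · rw [if_pos h]
    have h1 := hF.conn.row α γ α γ h (Finset.mem_univ _) (Finset.mem_univ _)
    rw [if_pos ⟨rfl, rfl⟩] at h1
    have h2 : ((∑ β, ∑ δ, ‖F α γ β δ‖ ^ 2 : ℝ) : ℂ) = 1 := by
      rw [← h1]
      push_cast
      refine Finset.sum_congr rfl fun β _ => Finset.sum_congr rfl fun δ _ => ?_
      exact (Complex.mul_conj' _).symm
    exact_mod_cast h2
  · rw [if_neg h]
    refine Finset.sum_eq_zero fun β _ => Finset.sum_eq_zero fun δ _ => ?_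
    have : F α γ β δ = 0 := by
      by_contra h0
      exact h (hF.conn.supp _ _ _ _ h0).1.1
    rw [this]
    simp

theorem Cr_expand (F G : V → V → V → V → ℂ) :
    ∑ α, ∑ γ, ∑ β, ∑ δ, ‖G α γ β δ - F α γ β δ‖ ^ 2 =
      ∑ α, ∑ γ, ∑ β, ∑ δ, ‖G α γ β δ‖ ^ 2 + ∑ α, ∑ γ, ∑ β, ∑ δ, ‖F α γ β δ‖ ^ 2 -
        2 * (∑ α, ∑ γ, ∑ β, ∑ δ, star (F α γ β δ) * G α γ β δ).re := by
  have h : ∀ a b : ℂ, ‖b - a‖ ^ 2 = ‖b‖ ^ 2 + ‖a‖ ^ 2 - 2 * (star a * b).re := by
    intro a b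
    rw [← Complex.normSq_eq_norm_sq, ← Complex.normSq_eq_norm_sq, ← Complex.normSq_eq_norm_sq,
      Complex.normSq_apply, Complex.normSq_apply, Complex.normSq_apply]
    simp only [Complex.sub_re, Complex.sub_im, Complex.mul_re, Complex.star_def, Complex.conj_re,
      Complex.conj_im]
    ring
  simp only [h, Finset.sum_sub_distrib, Finset.sum_add_distrib, Complex.re_sum, Finset.mul_sum]

theorem Cr_act_one (F : V → V → V → V → ℂ) : act (1 : Matrix V V ℂ) F = F := by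
  funext α γ β δ
  unfold act
  simp [Matrix.one_apply]

/-- the derivative of the action -/
def Cr_E (Z : Matrix V V ℂ) (F : V → V → V → V → ℂ) (α γ β δ : V) : ℂ :=
  ∑ x, Z α x * F x γ β δ + ∑ x, Z γ x * F α x β δ + ∑ x, F α γ x δ * star (Z β x) +
    ∑ x, F α γ β x * star (Z δ x)

theorem Cr_act_deriv (Z : Matrix V V ℂ) (F : V → V → V → V → ℂ) (α γ β δ : V) :
    HasDerivAt (fun s : ℝ => act (Cr_v Z s) F α γ β δ) (Cr_E Z F α γ β δ) 0 := by
  have hd : ∀ x y, HasDerivAt (fun s : ℝ => Cr_v Z s x y) (Z x y) 0 := Cr_v_deriv Z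
  have hs : ∀ x y, HasDerivAt (fun s : ℝ => star (Cr_v Z s x y)) (star (Z x y)) 0 :=
    fun x y => (hd x y).star
  have h0 : ∀ x y, Cr_v Z 0 x y = if x = y then 1 else 0 := by
    intro x y
    rw [Cr_v_zero, Matrix.one_apply]
  unfold act
  have h := HasDerivAt.fun_sum (u := univ) fun α' _ => HasDerivAt.fun_sum (u := univ) fun γ' _ =>
    HasDerivAt.fun_sum (u := univ) fun β' _ => HasDerivAt.fun_sum (u := univ) fun δ' _ =>
      ((((hd α α').mul (hd γ γ')).mul_const (F α' γ' β' δ')).mul (hs β β')).mul (hs δ δ')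
  refine HasDerivAt.congr_deriv h ?_
  unfold Cr_E
  simp only [Pi.mul_apply, h0, Finset.sum_add_distrib, add_mul]
  simp

end Pool.Agent.helper93.TV
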